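import Pool.Agent.BEH.Stmts
import Pool.Agent.Helper60_BEL.PRD

/-!
# Squad BEH (MP_be01ff_an), row PRR: product with a smooth function, change of the domain
(the estimates are those of helper60's row PRD)
-/

set_option autoImplicit false

noncomputable section

namespace Pool.Agent.BEH.H5

open Set Filter Topology MeasureTheory
open scoped InnerProductSpace ENNReal
open Pool.Agent.BE01 Pool.Agent.BEL Pool.Agent.BEH
open Pool.Agent.BEL.H60 (ml ml_coe ml_lim mr mr_coe mr_lim grad_mul grad_cont)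

section
variable {d : ℕ} {Ω Ω' : Set (En d)} {F : Type} [NormedAddCommGroup F] [NormedSpace ℝ F]

theorem mu_le (h : Ω' ⊆ Ω) : mu Ω' ≤ mu Ω := Measure.restrict_mono h le_rfl

/-- restriction to the smaller domain -/
def res (h : Ω' ⊆ Ω) (g : Lp F 2 (mu Ω)) : Lp F 2 (mu Ω') :=
  ((Lp.memLp g).mono_measure (mu_le h)).toLp _

theorem res_coe (h : Ω' ⊆ Ω) (g : Lp F 2 (mu Ω)) : res h g =ᵐ[mu Ω'] g := MemLp.coeFn_toLp _

theorem ae_res (h : Ω' ⊆ Ω) {X : Type} {f g : En d → X} (hfg : f =ᵐ[mu Ω] g) :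
    f =ᵐ[mu Ω'] g := ae_mono (mu_le h) hfg

theorem res_lim (h : Ω' ⊆ Ω) (g : ℕ → Lp F 2 (mu Ω)) (g0 : Lp F 2 (mu Ω))
    (hg : Tendsto g atTop (𝓝 g0)) : Tendsto (fun n => res h (g n)) atTop (𝓝 (res h g0)) := by
  rw [Lp.tendsto_Lp_iff_tendsto_eLpNorm'] at hg ⊢
  refine tendsto_of_tendsto_of_tendsto_of_le_of_le tendsto_const_nhds hg
    (fun n => bot_le) (fun n => ?_)
  have h1 : eLpNorm (⇑(res h (g n)) - ⇑(res h g0)) 2 (mu Ω') =
      eLpNorm (⇑(g n) - ⇑g0) 2 (mu Ω') :=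
    eLpNorm_congr_ae ((res_coe h (g n)).sub (res_coe h g0))
  show eLpNorm (⇑(res h (g n)) - ⇑(res h g0)) 2 (mu Ω') ≤ _
  rw [h1]
  exact eLpNorm_mono_measure _ (mu_le h)

end

theorem prr : PrrStmt := by
  intro d Ω Ω' ι ι' f hΩ hΩ' hsub hι hι' hf hb hsupp
  obtain ⟨C, hC⟩ := hb
  have hfc : Continuous f := hf.continuous
  have hM : ∀ x, ‖f x‖ ≤ C := fun x => (hC x).1
  have hgc : Continuous (gradient f) := grad_cont hf
  have hM' : ∀ x, ‖gradient f x‖ ≤ C := fun x => (hC x).2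
  have hts : ∀ ψ, Tst Ω ψ → Tst Ω' (fun y => f y * ψ y) := by
    intro ψ h
    refine ⟨hf.mul h.1, h.2.1.mul_left, ?_⟩
    refine Subset.trans ?_ hsupp
    intro x hx
    exact ⟨tsupport_mul_subset_left (f := f) (g := ψ) hx,
      h.2.2 (tsupport_mul_subset_right (f := f) (g := ψ) hx)⟩
  have hex : ∀ G : VV Ω, ∃ L : VV Ω', ι' L =ᵐ[mu Ω'] (fun y => f y * ι G y) ∧
      ((L : VV Ω') : Lp (En d) 2 (mu Ω')) =ᵐ[mu Ω']
        fun y => f y • (G : Lp (En d) 2 (mu Ω)) y + ι G y • gradient f y := by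
    intro G
    have hG : (G : Lp (En d) 2 (mu Ω)) ∈
        closure {G : Lp (En d) 2 (mu Ω) | ∃ ψ, Tst Ω ψ ∧ G =ᵐ[mu Ω] gradient ψ} :=
      (H69.mem_VV_iff Ω _).mp G.2
    obtain ⟨g, hg, hgG⟩ := mem_closure_iff_seq_limit.mp hG
    choose ψ hψ hgψ using hg
    have hgV : ∀ n, g n ∈ VV Ω := fun n =>
      (H69.mem_VV_iff Ω _).mpr (subset_closure ⟨ψ n, hψ n, hgψ n⟩)
    let g' : ℕ → VV Ω := fun n => ⟨g n, hgV n⟩
    have hg' : Tendsto g' atTop (𝓝 G) := tendsto_subtype_rng.mpr hgG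
    have hy : Tendsto (fun n => ι (g' n)) atTop (𝓝 (ι G)) := (ι.continuous.tendsto G).comp hg'
    have hyψ : ∀ n, ι (g' n) =ᵐ[mu Ω] ψ n := fun n => hι (ψ n) (hψ n) (g' n) (hgψ n)
    have hmem : ∀ n, ∃ H : VV Ω', (H : Lp (En d) 2 (mu Ω')) =ᵐ[mu Ω']
        gradient (fun y => f y * ψ n y) := by
      intro n
      have h1 := H69.grad_memLp (hts _ (hψ n))
      refine ⟨⟨h1.toLp _, (H69.mem_VV_iff Ω' _).mpr (subset_closure
        ⟨_, hts _ (hψ n), h1.coeFn_toLp⟩)⟩, h1.coeFn_toLp⟩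
    choose H hH using hmem
    have hHp : ∀ n, (H n : Lp (En d) 2 (mu Ω')) =
        res hsub (ml hfc hM (g n) + mr hgc hM' (ι (g' n))) := by
      intro n
      refine Lp.ext ?_
      filter_upwards [hH n, res_coe hsub (ml hfc hM (g n) + mr hgc hM' (ι (g' n))),
        ae_res hsub (ml_coe hfc hM (g n)), ae_res hsub (mr_coe hgc hM' (ι (g' n))),
        ae_res hsub (hyψ n), ae_res hsub (hgψ n),
        ae_res hsub (Lp.coeFn_add (ml hfc hM (g n)) (mr hgc hM' (ι (g' n))))] with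
        x e1 e0 e2 e3 e4 e5 e6
      rw [e1, e0, e6, Pi.add_apply, e2, e3, grad_mul hf (hψ n).1, e4, e5]
    have hHlim : Tendsto (fun n => (H n : Lp (En d) 2 (mu Ω'))) atTop
        (𝓝 (res hsub (ml hfc hM (G : Lp (En d) 2 (mu Ω)) + mr hgc hM' (ι G)))) := by
      simp only [hHp]
      exact res_lim hsub _ _ ((ml_lim hfc hM g _ hgG).add (mr_lim hgc hM' _ _ hy))
    have hL : res hsub (ml hfc hM (G : Lp (En d) 2 (mu Ω)) + mr hgc hM' (ι G)) ∈ VV Ω' :=
      (H69.VV_closed Ω').mem_of_tendsto hHlim (Eventually.of_forall fun n => (H n).2)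
    let L : VV Ω' := ⟨_, hL⟩
    have hHL : Tendsto (fun n => H n) atTop (𝓝 L) := tendsto_subtype_rng.mpr hHlim
    have h1 : Tendsto (fun n => ι' (H n)) atTop (𝓝 (ι' L)) :=
      (ι'.continuous.tendsto L).comp hHL
    have h2 : ∀ n, ι' (H n) = res hsub (ml hfc hM (ι (g' n))) := by
      intro n
      refine Lp.ext ?_
      filter_upwards [hι' _ (hts _ (hψ n)) (H n) (hH n),
        res_coe hsub (ml hfc hM (ι (g' n))),
        ae_res hsub (ml_coe hfc hM (ι (g' n))), ae_res hsub (hyψ n)] with x e1 e0 e2 e3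
      rw [e1, e0, e2, e3, smul_eq_mul]
    have h3 : Tendsto (fun n => ι' (H n)) atTop (𝓝 (res hsub (ml hfc hM (ι G)))) := by
      simp only [h2]
      exact res_lim hsub _ _ (ml_lim hfc hM _ _ hy)
    have h4 : ι' L = res hsub (ml hfc hM (ι G)) := tendsto_nhds_unique h1 h3
    refine ⟨L, ?_, ?_⟩
    · rw [h4]
      filter_upwards [res_coe hsub (ml hfc hM (ι G)), ae_res hsub (ml_coe hfc hM (ι G))] with
        x e1 e2
      rw [e1, e2, smul_eq_mul]
    · show (↑↑(res hsub (ml hfc hM (G : Lp (En d) 2 (mu Ω)) + mr hgc hM' (ι G))) :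
        En d → En d) =ᵐ[mu Ω'] _
      filter_upwards [res_coe hsub (ml hfc hM (G : Lp (En d) 2 (mu Ω)) + mr hgc hM' (ι G)),
        ae_res hsub (ml_coe hfc hM (G : Lp (En d) 2 (mu Ω))),
        ae_res hsub (mr_coe hgc hM' (ι G)),
        ae_res hsub (Lp.coeFn_add (ml hfc hM (G : Lp (En d) 2 (mu Ω))) (mr hgc hM' (ι G)))]
        with x e0 e1 e2 e3
      rw [e0, e3, Pi.add_apply, e1, e2]
  choose M hM1 hM2 using hex
  refine ⟨{ toFun := M, map_add' := ?_, map_smul' := ?_ }, fun G => ⟨hM1 G, hM2 G⟩⟩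
  · intro G K
    refine Subtype.ext (Lp.ext ?_)
    have e1 : ((((G + K : VV Ω) : Lp (En d) 2 (mu Ω))) : En d → En d) =ᵐ[mu Ω']
        fun x => (G : Lp (En d) 2 (mu Ω)) x + (K : Lp (En d) 2 (mu Ω)) x :=
      ae_res hsub (Lp.coeFn_add _ _)
    have e2 : (ι (G + K) : En d → ℝ) =ᵐ[mu Ω'] fun x => ι G x + ι K x := by
      rw [map_add]
      exact ae_res hsub (Lp.coeFn_add _ _)
    have e3 : ((((M G + M K : VV Ω') : Lp (En d) 2 (mu Ω'))) : En d → En d) =ᵐ[mu Ω']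
        fun x => (M G : Lp (En d) 2 (mu Ω')) x + (M K : Lp (En d) 2 (mu Ω')) x :=
      Lp.coeFn_add _ _
    filter_upwards [hM2 (G + K), hM2 G, hM2 K, e1, e2, e3] with x a1 a2 a3 a4 a5 a6
    rw [a1, a6, a2, a3, a4, a5]
    module
  · intro c G
    refine Subtype.ext (Lp.ext ?_)
    have e1 : ((((c • G : VV Ω) : Lp (En d) 2 (mu Ω))) : En d → En d) =ᵐ[mu Ω']
        fun x => c • (G : Lp (En d) 2 (mu Ω)) x :=
      ae_res hsub (Lp.coeFn_smul _ _)
    have e2 : (ι (c • G) : En d → ℝ) =ᵐ[mu Ω'] fun x => c • ι G x := by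
      rw [map_smul]
      exact ae_res hsub (Lp.coeFn_smul _ _)
    have e3 : ((((c • M G : VV Ω') : Lp (En d) 2 (mu Ω'))) : En d → En d) =ᵐ[mu Ω']
        fun x => c • (M G : Lp (En d) 2 (mu Ω')) x :=
      Lp.coeFn_smul _ _
    filter_upwards [hM2 (c • G), hM2 G, e1, e2, e3] with x a1 a2 a4 a5 a6
    simp only [RingHom.id_apply]
    rw [a1, a6, a2, a4, a5]
    simp only [smul_eq_mul]
    module

end Pool.Agent.BEH.H5
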